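import Mathlib
import Pool.Agent.MPeb30e1.Main

set_option autoImplicit false

namespace Pool.Agent.Results.MP_eb30e1_co.MaxSwitches

open Pool.Agent.MPeb30e1

/-- The largest number of adjacencies at which the fixed point property is gained in a maximal
chain of order relations on `[n]` is `(n - 2)^2 / 4 + 1` (integer part) for `n ≥ 2`, and `0` for
`n = 1`. -/
theorem result (n : ℕ) (hn : 1 ≤ n) :
    IsGreatest {k : ℕ | ∃ C : Set (OrdRel (Fin n)), MaximalChain C ∧
        {p : OrdRel (Fin n) × OrdRel (Fin n) |
          Consecutive C p.1 p.2 ∧ ¬ FPP p.1 ∧ FPP p.2}.ncard = k}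
      (if n = 1 then 0 else (n - 2) ^ 2 / 4 + 1) := by
  have hcard : Nat.card (Fin n) = n := Nat.card_fin n
  have hup : ∀ C : Set (OrdRel (Fin n)), MaximalChain C →
      {p : OrdRel (Fin n) × OrdRel (Fin n) |
          Consecutive C p.1 p.2 ∧ ¬ FPP p.1 ∧ FPP p.2}.ncard ≤
        (if n = 1 then 0 else (n - 2) ^ 2 / 4 + 1) := by
    intro C hC
    have h := flip_count_upper hC (by rw [hcard]; exact hn)
    rw [hcard] at h
    exact h
  constructor
  · by_cases h1 : n = 1
    · subst h1
      have huniq : ∀ R : OrdRel (Fin 1), R = diag (Fin 1) := by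
        intro R
        apply OrdRel.ext'
        apply Set.Subset.antisymm
        · rintro ⟨a, b⟩ _
          exact Subsingleton.elim a b
        · exact diag_sub R
      have hmax : MaximalChain ({diag (Fin 1)} : Set (OrdRel (Fin 1))) := by
        refine ⟨Set.subsingleton_singleton.isChain, ?_⟩
        intro D _ hD
        apply Set.Subset.antisymm hD
        intro R _
        rw [huniq R]
        exact Set.mem_singleton _
      exact ⟨_, hmax, le_antisymm (hup _ hmax) (Nat.zero_le _)⟩
    · obtain ⟨C, hC, hC2⟩ := flips_exists n (by omega)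
      refine ⟨C, hC, le_antisymm (hup C hC) ?_⟩
      rw [if_neg h1]
      exact hC2
  · rintro k ⟨C, hC, rfl⟩
    exact hup C hC

end Pool.Agent.Results.MP_eb30e1_co.MaxSwitches
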