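import Mathlib
import Pool.Agent.MPeb30e1.Main

set_option autoImplicit false

namespace Pool.Agent.Results.MP_eb30e1_co.MinMembersFPP

open Pool.Agent.MPeb30e1

/-- The smallest number of members with the fixed point property in a maximal chain of order
relations on `[n]` is `n / 2 + 1` (integer part), except that it is `1` for `n = 2`. -/
theorem result (n : ℕ) (hn : 1 ≤ n) :
    IsLeast {k : ℕ | ∃ C : Set (OrdRel (Fin n)), MaximalChain C ∧ {R | R ∈ C ∧ FPP R}.ncard = k}
      (if n = 2 then 1 else n / 2 + 1) := by
  have hcard : Nat.card (Fin n) = n := Nat.card_fin n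
  have hlow : ∀ C : Set (OrdRel (Fin n)), MaximalChain C →
      (if n = 2 then 1 else n / 2 + 1) ≤ {R | R ∈ C ∧ FPP R}.ncard := by
    intro C hC
    have h := fpp_count_lower hC (by rw [hcard]; exact hn)
    rw [hcard] at h
    exact h
  constructor
  · rcases Nat.lt_or_ge n 2 with h | h
    · have hn1 : n = 1 := by omega
      subst hn1
      have huniq : ∀ R : OrdRel (Fin 1), R = diag (Fin 1) := by
        intro R
        apply OrdRel.ext'
        apply Set.Subset.antisymm
        · rintro ⟨a, b⟩ _
          exact Subsingleton.elim a b
        · exact diag_sub R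
      have hF : FPP (diag (Fin 1)) := fun f _ => ⟨0, Subsingleton.elim _ _⟩
      refine ⟨{diag (Fin 1)}, ⟨?_, ?_⟩, ?_⟩
      · exact Set.subsingleton_singleton.isChain
      · intro D _ hD
        apply Set.Subset.antisymm hD
        intro R _
        rw [huniq R]
        exact Set.mem_singleton _
      · have : {R | R ∈ ({diag (Fin 1)} : Set (OrdRel (Fin 1))) ∧ FPP R} = {diag (Fin 1)} := by
          ext R
          constructor
          · exact fun h => h.1
          · intro h
            have h' : R = diag (Fin 1) := h
            rw [h']
            exact ⟨rfl, hF⟩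
        rw [this, Set.ncard_singleton]
        norm_num
    · obtain ⟨C, hC, hC2⟩ := few_exists n h
      exact ⟨C, hC, le_antisymm hC2 (hlow C hC)⟩
  · rintro k ⟨C, hC, rfl⟩
    exact hlow C hC

end Pool.Agent.Results.MP_eb30e1_co.MinMembersFPP
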